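import Mathlib

/-!
# Nets in `ℙ²` and in `ℙ³`: definitions

A hyperplane of `ℙ(ℂᵐ)` is given by the coefficient vector of a linear form, and an arrangement
with `k` blocks of `d` hyperplanes by `ℓ : Fin k → Fin d → Fin m → ℂ`.
-/

open Matrix

namespace Pool.NPS

/-- the product of the `d` linear forms of one block, as a function -/
def block {m d : ℕ} (ℓ : Fin d → Fin m → ℂ) (x : Fin m → ℂ) : ℂ := ∏ a, ℓ a ⬝ᵥ x

/-- There are at least three blocks, all the `k d` hyperplanes are different (so the blocks are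
disjoint, the products are reduced and have no common factor), and the products of the blocks are
in a pencil. -/
def IsPencil {m k d : ℕ} (ℓ : Fin k → Fin d → Fin m → ℂ) : Prop :=
  3 ≤ k ∧ 1 ≤ d ∧
  (∀ i j a b, (i = j → a ≠ b) → ∃ x, ℓ i a ⬝ᵥ x = 0 ∧ ℓ j b ⬝ᵥ x ≠ 0) ∧
  ∃ P Q : (Fin m → ℂ) → ℂ, ∀ i, ∃ s t : ℂ, ∀ x, block (ℓ i) x = s * P x + t * Q x

/-- A `(k, d)`-net in `ℙ²`: no point is on two lines of a block and on a line of another block.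
(So the curves of two blocks meet transversally, in exactly `d ^ 2` points.) -/
def IsNetP2 {k d : ℕ} (ℓ : Fin k → Fin d → Fin 3 → ℂ) : Prop :=
  IsPencil ℓ ∧ ∀ i j a b c y, i ≠ j → a ≠ b → ℓ i a ⬝ᵥ y = 0 → ℓ i b ⬝ᵥ y = 0 →
    ℓ j c ⬝ᵥ y = 0 → ∀ m, y m = 0

/-- A `(k, d)`-net in `ℙ³`: for the generic plane `h ⬝ᵥ x = 0` (outside of the zero set of some
`G ≠ 0`; one may take `G` with `G 0 = 0`, so that `h ≠ 0`) and every basis `u` of this plane, the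
restricted arrangement is a `(k, d)`-net in `ℙ²`. -/
def IsNetP3 {k d : ℕ} (ℓ : Fin k → Fin d → Fin 4 → ℂ) : Prop :=
  IsPencil ℓ ∧ ∃ G : MvPolynomial (Fin 4) ℂ, G ≠ 0 ∧ ∀ h, MvPolynomial.eval h G ≠ 0 →
    ∀ u : Fin 3 → Fin 4 → ℂ, (∀ m, h ⬝ᵥ u m = 0) →
      (∀ c : Fin 3 → ℂ, (∀ l, ∑ m, c m * u m l = 0) → ∀ m, c m = 0) →
      IsNetP2 (fun i a m => ℓ i a ⬝ᵥ u m)

/-- all the planes of the arrangement pass through one common point -/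
def IsCone {k d : ℕ} (ℓ : Fin k → Fin d → Fin 4 → ℂ) : Prop :=
  ∃ x : Fin 4 → ℂ, (∃ m, x m ≠ 0) ∧ ∀ i a, ℓ i a ⬝ᵥ x = 0

/-- The first block of `Q_n` in coordinates `w, x, y, z`. The second is `Qb n w y x z`, the third
`Qb n w z x y`. -/
def Qb (n : ℕ) (w x y z : ℂ) : ℂ := (w ^ n - x ^ n) * (y ^ n - z ^ n)

/-- The arrangement has the three blocks `i, j, l`, and they are the three blocks of `Q_n` in the
coordinates `A, B, C, D`, up to nonzero factors `r, s, t`. -/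
def IsQ {k d : ℕ} (ℓ : Fin k → Fin d → Fin 4 → ℂ) (n : ℕ) : Prop :=
  ∃ (i j l : Fin k) (A B C D : Fin 4 → ℂ) (r s t : ℂ), (∀ p, p = i ∨ p = j ∨ p = l) ∧
    (∀ v, A ⬝ᵥ v = 0 → B ⬝ᵥ v = 0 → C ⬝ᵥ v = 0 → D ⬝ᵥ v = 0 → ∀ m, v m = 0) ∧
    r ≠ 0 ∧ s ≠ 0 ∧ t ≠ 0 ∧ ∀ v, block (ℓ i) v = r * Qb n (A ⬝ᵥ v) (B ⬝ᵥ v) (C ⬝ᵥ v) (D ⬝ᵥ v) ∧
      block (ℓ j) v = s * Qb n (A ⬝ᵥ v) (C ⬝ᵥ v) (B ⬝ᵥ v) (D ⬝ᵥ v) ∧
      block (ℓ l) v = t * Qb n (A ⬝ᵥ v) (D ⬝ᵥ v) (B ⬝ᵥ v) (C ⬝ᵥ v)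

end Pool.NPS
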