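import Mathlib
import Pool.Agent.H67.NPS.Defs
import Pool.Agent.H67.NetExtract

/-!
# Comparison of the short definitions with the first ones

A net of `Pool/Agent/H67/NetDefs.lean` is a net of `NPS/Defs.lean`, and the classification for the
short definitions gives the one for the first definitions.
-/

open MvPolynomial Matrix

namespace Pool.NPS

open Pool.Agent.H67.NetP3 (eval_linForm eval_blockPoly mem_span_pair_of_dual dotL dotL_apply
  exists_vanish_of_prod pullback_dotProduct grad_eq_zero IsPencilArr blockPoly linForm)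

theorem block_eval {m d : ℕ} (w : Fin d → Fin m → ℂ) (x : Fin m → ℂ) :
    block w x = eval x (blockPoly w) := (eval_blockPoly w x).symm

theorem isPencil_of_old {m k d : ℕ} {ℓ : Fin k → Fin d → (Fin m → ℂ)} (h : IsPencilArr k d ℓ) :
    IsPencil ℓ := by
  refine ⟨h.three_le, h.d_pos, ?_, ?_⟩
  · intro i j a b hab
    by_contra hcon
    push Not at hcon
    have h3 : ℓ j b ∈ Submodule.span ℂ {ℓ i a, 0} :=
      mem_span_pair_of_dual (fun x hx _ => hcon x hx)
    have h4 := h.distinct (i, a) (j, b) (by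
      intro h2
      simp only [Prod.mk.injEq] at h2
      exact hab h2.1 h2.2)
    rw [Submodule.mem_span_pair] at h3
    obtain ⟨α, β, hαβ⟩ := h3
    rw [smul_zero, add_zero] at hαβ
    rw [LinearIndependent.pair_iff] at h4
    have h5 := h4 α (-1) (by simp [hαβ])
    simp at h5
  · have hk := h.three_le
    have hne : (⟨0, by omega⟩ : Fin k) ≠ ⟨1, by omega⟩ := by
      intro h0
      have := congrArg Fin.val h0
      simp at this
    refine ⟨block (ℓ ⟨0, by omega⟩), block (ℓ ⟨1, by omega⟩), fun l => ?_⟩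
    obtain ⟨α, β, hαβ⟩ := h.exists_comb hne l
    refine ⟨α, β, fun x => ?_⟩
    rw [block_eval, hαβ, eval_add, smul_eval, smul_eval, ← block_eval, ← block_eval]

theorem isNetP2_of_old {k d : ℕ} {ℓ : Fin k → Fin d → (Fin 3 → ℂ)}
    (h : Pool.Agent.H67.NetP3.IsNetP2 k d ℓ) : IsNetP2 ℓ := by
  refine ⟨isPencil_of_old h.toIsPencilArr, ?_⟩
  intro i j a b c y hij hab ha hb hc
  by_contra hcon
  have hy : y ≠ 0 := by
    rintro rfl
    exact hcon (fun m => rfl)
  have h1 : eval y (blockPoly (ℓ i)) = 0 := by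
    rw [eval_blockPoly]
    exact Finset.prod_eq_zero (Finset.mem_univ a) ha
  have h2 : eval y (blockPoly (ℓ j)) = 0 := by
    rw [eval_blockPoly]
    exact Finset.prod_eq_zero (Finset.mem_univ c) hc
  have h3 := (h.transversal i j hij y hy h1 h2).ne_zero 0
  apply h3
  simpa using grad_eq_zero (ℓ i) y hab ha hb

theorem isNetP3_of_old {k d : ℕ} {ℓ : Fin k → Fin d → (Fin 4 → ℂ)}
    (h : Pool.Agent.H67.NetP3.IsNetP3 k d ℓ) : IsNetP3 ℓ := by
  refine ⟨isPencil_of_old h.toIsPencilArr, ?_⟩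
  obtain ⟨G, hG0, hG⟩ := h.generic
  refine ⟨G * X 0, mul_ne_zero hG0 (X_ne_zero _), ?_⟩
  intro g hg u hu hind
  rw [map_mul, eval_X] at hg
  have hgG : eval g G ≠ 0 := left_ne_zero_of_mul hg
  have hg0 : g ≠ 0 := by
    intro h0
    apply right_ne_zero_of_mul hg
    rw [h0]; rfl
  let φ : (Fin 3 → ℂ) →ₗ[ℂ] (Fin 4 → ℂ) := Fintype.linearCombination ℂ u
  have hφ : ∀ c, φ c = ∑ m, c m • u m := fun c => Fintype.linearCombination_apply ℂ u c
  have hφinj : Function.Injective φ := by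
    rw [injective_iff_map_eq_zero]
    intro c hc
    funext m
    refine hind c (fun l => ?_) m
    have h1 := congrFun hc l
    rw [hφ, Finset.sum_apply, Pi.zero_apply] at h1
    simpa using h1
  have hker : Module.finrank ℂ (LinearMap.ker (dotL g)) = 3 := by
    have h2 := LinearMap.finrank_range_add_finrank_ker (dotL g)
    have h3 : LinearMap.range (dotL g) = ⊤ := by
      rw [LinearMap.range_eq_top]
      apply LinearMap.surjective
      intro h0
      apply hg0
      funext i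
      have := congrArg (fun f => f (Pi.single i 1)) h0
      simpa using this
    rw [h3] at h2
    simp at h2
    omega
  have hle : LinearMap.range φ ≤ LinearMap.ker (dotL g) := by
    rintro _ ⟨c, rfl⟩
    rw [LinearMap.mem_ker, hφ, map_sum]
    refine Finset.sum_eq_zero fun m _ => ?_
    rw [map_smul, dotL_apply, hu m, smul_zero]
  have heq : LinearMap.range φ = LinearMap.ker (dotL g) := by
    apply Submodule.eq_of_le_of_finrank_eq hle
    rw [LinearMap.finrank_range_of_inj hφinj, hker]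
    simp
  have h5 := isNetP2_of_old (hG g hgG φ hφinj (fun x => by
    rw [heq, LinearMap.mem_ker, dotL_apply]))
  have h6 : (fun i j => Pool.Agent.H67.NetP3.pullback φ (ℓ i j)) =
      fun i a m => ℓ i a ⬝ᵥ u m := by
    funext i a m
    have : φ (Pi.single m 1) = u m := by
      rw [hφ]
      simp [Pi.single_apply]
    show ℓ i a ⬝ᵥ φ (Pi.single m 1) = _
    rw [this]
  rw [h6] at h5
  exact h5

theorem isCone_iff_old {k d : ℕ} {ℓ : Fin k → Fin d → (Fin 4 → ℂ)} :
    IsCone ℓ ↔ Pool.Agent.H67.NetP3.IsCone ℓ := by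
  constructor
  · rintro ⟨x, ⟨m, hm⟩, h⟩
    exact ⟨x, fun h0 => hm (by rw [h0, Pi.zero_apply]), h⟩
  · rintro ⟨x, hx, h⟩
    refine ⟨x, ?_, h⟩
    by_contra hcon
    push Not at hcon
    exact hx (funext hcon)

theorem equivQ_of_isQ {d n : ℕ} {ℓ : Fin 3 → Fin d → (Fin 4 → ℂ)} (h : IsQ ℓ n) :
    Pool.Agent.H67.NetP3.IsEquivQ ℓ n := by
  obtain ⟨i, j, l, A, B, C', D, r, s, t, hcov, hind, hr, hs, ht, hall⟩ := h
  have hf : Function.Bijective (![i, j, l] : Fin 3 → Fin 3) := by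
    rw [← Finite.surjective_iff_bijective]
    intro p
    rcases hcov p with h | h | h
    · exact ⟨0, h.symm⟩
    · exact ⟨1, h.symm⟩
    · exact ⟨2, h.symm⟩
  let e : Fin 3 ≃ Fin 3 := (Equiv.ofBijective _ hf).symm
  have he : ∀ q : Fin 3, e ((![i, j, l] : Fin 3 → Fin 3) q) = q := fun q =>
    (Equiv.ofBijective _ hf).symm_apply_apply q
  refine ⟨e, Matrix.of ![A, B, C', D], fun p => (![r, s, t] : Fin 3 → ℂ) (e p), ?_, ?_⟩
  · rw [← Matrix.mulVec_injective_iff_isUnit]
    intro v w hvw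
    have h1 : (Matrix.of ![A, B, C', D]) *ᵥ (v - w) = 0 := by
      rw [Matrix.mulVec_sub, hvw, sub_self]
    have h2 : ∀ m, (v - w) m = 0 :=
      hind (v - w) (congrFun h1 0) (congrFun h1 1) (congrFun h1 2) (congrFun h1 3)
    exact sub_eq_zero.1 (funext h2)
  · have he0 : e i = 0 := he 0
    have he1 : e j = 1 := he 1
    have he2 : e l = 2 := he 2
    have hA : ∀ v : Fin 4 → ℂ, (Matrix.of ![A, B, C', D]) 0 ⬝ᵥ v = A ⬝ᵥ v := fun _ => rfl
    have hB : ∀ v : Fin 4 → ℂ, (Matrix.of ![A, B, C', D]) 1 ⬝ᵥ v = B ⬝ᵥ v := fun _ => rfl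
    have hC : ∀ v : Fin 4 → ℂ, (Matrix.of ![A, B, C', D]) 2 ⬝ᵥ v = C' ⬝ᵥ v := fun _ => rfl
    have hD : ∀ v : Fin 4 → ℂ, (Matrix.of ![A, B, C', D]) 3 ⬝ᵥ v = D ⬝ᵥ v := fun _ => rfl
    intro p
    rcases hcov p with rfl | rfl | rfl
    · refine ⟨by simpa [he0] using hr, MvPolynomial.funext fun v => ?_⟩
      have := (hall v).1
      rw [block_eval] at this
      rw [this]
      simp [he0, Pool.Agent.H67.NetP3.Qblock, eval_linForm, Qb, hA, hB, hC, hD]
    · refine ⟨by simpa [he1] using hs, MvPolynomial.funext fun v => ?_⟩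
      have := (hall v).2.1
      rw [block_eval] at this
      rw [this]
      simp [he1, Pool.Agent.H67.NetP3.Qblock, eval_linForm, Qb, hA, hB, hC, hD]
    · refine ⟨by simpa [he2] using ht, MvPolynomial.funext fun v => ?_⟩
      have := (hall v).2.2
      rw [block_eval] at this
      rw [this]
      simp [he2, Pool.Agent.H67.NetP3.Qblock, eval_linForm, Qb, hA, hB, hC, hD]

/-- the classification for the short definitions gives the first one -/
theorem old_of_new
    (h : ∀ (k d : ℕ) (ℓ : Fin k → Fin d → Fin 4 → ℂ), IsNetP3 ℓ → ¬ IsCone ℓ →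
      ∃ n : ℕ, 2 ≤ n ∧ k = 3 ∧ d = 2 * n ∧ IsQ ℓ n) :
    ∀ (k d : ℕ) (ℓ : Fin k → Fin d → (Fin 4 → ℂ)), Pool.Agent.H67.NetP3.IsNetP3 k d ℓ →
      ¬ Pool.Agent.H67.NetP3.IsCone ℓ →
      ∃ n : ℕ, 2 ≤ n ∧ k = 3 ∧ d = 2 * n ∧ Pool.Agent.H67.NetP3.IsEquivQ ℓ n := by
  intro k d ℓ h1 h2
  obtain ⟨n, hn, rfl, hd, hQ⟩ := h k d ℓ (isNetP3_of_old h1) (fun hc => h2 (isCone_iff_old.1 hc))
  exact ⟨n, hn, rfl, hd, equivQ_of_isQ hQ⟩

end Pool.NPS
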