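import Mathlib
import Pool.Agent.H67.NPS.Defs
import Pool.Agent.H67.NetExtract

/-!
# The incidence structure of a net, from the short definitions
-/

open MvPolynomial Matrix

namespace Pool.NPS

open Pool.Agent.H67.NetP3 (eval_linForm eval_blockPoly mem_span_pair_of_dual dotL dotL_apply
  exists_vanish_of_prod pullback_dotProduct)

/-- what is used of a net -/
structure Core {k d : ℕ} (ℓ : Fin k → Fin d → (Fin 4 → ℂ)) : Prop where
  three_le : 3 ≤ k
  d_pos : 0 < d
  distinct : ∀ p q : Fin k × Fin d, p ≠ q → LinearIndependent ℂ ![ℓ p.1 p.2, ℓ q.1 q.2]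
  exists_third : ∀ {i j : Fin k}, i ≠ j → ∀ (l : Fin k) (a b : Fin d),
    ∃ c, ℓ l c ∈ Submodule.span ℂ {ℓ i a, ℓ j b}
  third_unique : ∀ {i j l : Fin k}, i ≠ l → ∀ {a b c c' : Fin d},
    ℓ l c ∈ Submodule.span ℂ {ℓ i a, ℓ j b} → ℓ l c' ∈ Submodule.span ℂ {ℓ i a, ℓ j b} → c = c'

theorem indep_of_points {m : ℕ} {a b : Fin m → ℂ} (h1 : ∃ x, a ⬝ᵥ x = 0 ∧ b ⬝ᵥ x ≠ 0)
    (h2 : ∃ x, b ⬝ᵥ x = 0 ∧ a ⬝ᵥ x ≠ 0) : LinearIndependent ℂ ![a, b] := by
  rw [LinearIndependent.pair_iff]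
  intro s t hst
  obtain ⟨x, hx1, hx2⟩ := h1
  obtain ⟨y, hy1, hy2⟩ := h2
  constructor
  · have h := congrArg (fun v => v ⬝ᵥ y) hst
    simp only [add_dotProduct, smul_dotProduct, hy1, mul_zero, add_zero, zero_dotProduct,
      smul_eq_mul] at h
    exact (mul_eq_zero.1 h).resolve_right hy2
  · have h := congrArg (fun v => v ⬝ᵥ x) hst
    simp only [add_dotProduct, smul_dotProduct, hx1, mul_zero, zero_add, zero_dotProduct,
      smul_eq_mul] at h
    exact (mul_eq_zero.1 h).resolve_right hx2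

section

variable {m k d : ℕ} {ℓ : Fin k → Fin d → (Fin m → ℂ)}

theorem IsPencil.distinct (h : IsPencil ℓ) (p q : Fin k × Fin d) (hpq : p ≠ q) :
    LinearIndependent ℂ ![ℓ p.1 p.2, ℓ q.1 q.2] := by
  obtain ⟨-, -, h3, -⟩ := h
  apply indep_of_points
  · exact h3 _ _ _ _ (fun h1 h2 => hpq (Prod.ext h1 h2))
  · exact h3 _ _ _ _ (fun h1 h2 => hpq (Prod.ext h1.symm h2.symm))

/-- two blocks give independent functions -/
theorem IsPencil.indep_blocks (h : IsPencil ℓ) {i j : Fin k} (hij : i ≠ j) (s t : ℂ)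
    (hst : ∀ x, s * block (ℓ i) x + t * block (ℓ j) x = 0) : s = 0 ∧ t = 0 := by
  have hd : 0 < d := h.2.1
  have hgen : ∀ i j : Fin k, i ≠ j → ∀ s t : ℂ,
      (∀ x, s * block (ℓ i) x + t * block (ℓ j) x = 0) → t = 0 := by
    intro i j hij s t hst
    by_contra ht
    obtain ⟨b, hb⟩ := exists_vanish_of_prod (LinearMap.ker (dotL (ℓ i ⟨0, hd⟩))) (ℓ j) (by
      intro x hx
      have h1 := hst x
      have h2 : block (ℓ i) x = 0 :=
        Finset.prod_eq_zero (Finset.mem_univ ⟨0, hd⟩) (by simpa using hx)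
      rw [h2, mul_zero, zero_add] at h1
      exact (mul_eq_zero.mp h1).resolve_left ht)
    obtain ⟨x, hx1, hx2⟩ := h.2.2.1 i j ⟨0, hd⟩ b (fun h' => absurd h' hij)
    exact hx2 (hb x (by simpa using hx1))
  exact ⟨hgen j i hij.symm t s (fun x => by rw [add_comm]; exact hst x), hgen i j hij s t hst⟩

/-- existence of the third hyperplane -/
theorem IsPencil.exists_third (h : IsPencil ℓ) {i j : Fin k} (hij : i ≠ j) (l : Fin k)
    (a b : Fin d) : ∃ c, ℓ l c ∈ Submodule.span ℂ {ℓ i a, ℓ j b} := by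
  have hind := h.indep_blocks hij
  obtain ⟨-, -, -, P, Q, hPQ⟩ := h
  obtain ⟨s1, t1, h1⟩ := hPQ i
  obtain ⟨s2, t2, h2⟩ := hPQ j
  obtain ⟨s3, t3, h3⟩ := hPQ l
  have hdet : s1 * t2 - s2 * t1 ≠ 0 := by
    intro h0
    have e1 := hind t2 (-t1) (fun x => by rw [h1, h2]; linear_combination P x * h0)
    have e2 := hind s2 (-s1) (fun x => by rw [h1, h2]; linear_combination (-Q x) * h0)
    have e3 : t1 = 0 := neg_eq_zero.1 e1.2
    have e4 : s1 = 0 := neg_eq_zero.1 e2.2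
    have e5 := hind 1 0 (fun x => by rw [h1, e3, e4]; ring)
    exact one_ne_zero e5.1
  obtain ⟨c, hc⟩ := exists_vanish_of_prod
    (LinearMap.ker (dotL (ℓ i a)) ⊓ LinearMap.ker (dotL (ℓ j b))) (ℓ l) (by
      rintro x ⟨hx1, hx2⟩
      have e1 : block (ℓ i) x = 0 := Finset.prod_eq_zero (Finset.mem_univ a) (by simpa using hx1)
      have e2 : block (ℓ j) x = 0 := Finset.prod_eq_zero (Finset.mem_univ b) (by simpa using hx2)
      rw [h1] at e1
      rw [h2] at e2
      have e3 : P x = 0 := by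
        have : (s1 * t2 - s2 * t1) * P x = 0 := by linear_combination t2 * e1 - t1 * e2
        exact (mul_eq_zero.1 this).resolve_left hdet
      have e4 : Q x = 0 := by
        have : (s1 * t2 - s2 * t1) * Q x = 0 := by linear_combination s1 * e2 - s2 * e1
        exact (mul_eq_zero.1 this).resolve_left hdet
      change block (ℓ l) x = 0
      rw [h3, e3, e4]
      ring)
  refine ⟨c, mem_span_pair_of_dual fun x hx1 hx2 => hc x ⟨?_, ?_⟩⟩
  · simpa using hx1
  · simpa using hx2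

end

variable {k d : ℕ} {ℓ : Fin k → Fin d → (Fin 4 → ℂ)}

/-- there is a parametrised plane section which is a net in the plane -/
theorem IsNetP3.exists_section (h : IsNetP3 ℓ) : ∃ φ : (Fin 3 → ℂ) →ₗ[ℂ] (Fin 4 → ℂ),
    IsNetP2 (fun i a => Pool.Agent.H67.NetP3.pullback φ (ℓ i a)) := by
  obtain ⟨-, G, hG0, hG⟩ := h
  have h1 : G * X 0 ≠ 0 := mul_ne_zero hG0 (X_ne_zero _)
  obtain ⟨g, hg⟩ : ∃ g : Fin 4 → ℂ, eval g (G * X 0) ≠ 0 := by
    by_contra hcon
    push Not at hcon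
    apply h1
    exact MvPolynomial.funext (fun x => by rw [hcon x, map_zero])
  rw [map_mul, eval_X] at hg
  have hgG : eval g G ≠ 0 := left_ne_zero_of_mul hg
  have hg0 : g ≠ 0 := by
    intro h0
    apply right_ne_zero_of_mul hg
    rw [h0]; rfl
  have hker : Module.finrank ℂ (LinearMap.ker (dotL g)) = 3 := by
    have h2 := LinearMap.finrank_range_add_finrank_ker (dotL g)
    have h3 : LinearMap.range (dotL g) = ⊤ := by
      rw [LinearMap.range_eq_top]
      apply LinearMap.surjective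
      intro h0
      apply hg0
      funext i
      have := congrArg (fun f => f (Pi.single i 1)) h0
      simpa using this
    rw [h3] at h2
    simp at h2
    omega
  have e : (Fin 3 → ℂ) ≃ₗ[ℂ] LinearMap.ker (dotL g) :=
    LinearEquiv.ofFinrankEq _ _ (by rw [hker]; simp)
  let φ : (Fin 3 → ℂ) →ₗ[ℂ] (Fin 4 → ℂ) := (LinearMap.ker (dotL g)).subtype ∘ₗ e.toLinearMap
  have hφinj : Function.Injective φ := Subtype.val_injective.comp e.injective
  refine ⟨φ, hG g hgG (fun m => φ (Pi.single m 1)) (fun m => (e (Pi.single m 1)).2) ?_⟩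
  intro c hc
  have h2 : φ c = 0 := by
    have h3 : c = ∑ m, c m • (Pi.single m (1:ℂ) : Fin 3 → ℂ) := by
      funext j
      simp [Finset.sum_apply, Pi.single_apply]
    rw [h3, map_sum]
    funext l
    rw [Finset.sum_apply, Pi.zero_apply, ← hc l]
    refine Finset.sum_congr rfl fun m _ => ?_
    rw [map_smul, Pi.smul_apply, smul_eq_mul]
  have h4 : c = 0 := hφinj (by rw [h2, map_zero])
  intro m
  rw [h4, Pi.zero_apply]

/-- uniqueness of the third plane -/
theorem IsNetP3.third_unique (h : IsNetP3 ℓ) {i j l : Fin k} (hil : i ≠ l) {a b c c' : Fin d}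
    (hc : ℓ l c ∈ Submodule.span ℂ {ℓ i a, ℓ j b})
    (hc' : ℓ l c' ∈ Submodule.span ℂ {ℓ i a, ℓ j b}) : c = c' := by
  by_contra hcc
  obtain ⟨φ, hnet⟩ := h.exists_section
  obtain ⟨y, hy0, hya, hyb⟩ : ∃ y : Fin 3 → ℂ, y ≠ 0 ∧ ℓ i a ⬝ᵥ φ y = 0 ∧ ℓ j b ⬝ᵥ φ y = 0 := by
    let F : (Fin 3 → ℂ) →ₗ[ℂ] (Fin 2 → ℂ) :=
      LinearMap.pi ![dotL (ℓ i a) ∘ₗ φ, dotL (ℓ j b) ∘ₗ φ]
    obtain ⟨y, hy, hy0⟩ : ∃ y ∈ LinearMap.ker F, y ≠ 0 := by
      apply Submodule.exists_mem_ne_zero_of_ne_bot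
      apply LinearMap.ker_ne_bot_of_finrank_lt
      simp
    refine ⟨y, hy0, ?_, ?_⟩
    · have := congrFun (LinearMap.mem_ker.mp hy) 0
      simpa [F] using this
    · have := congrFun (LinearMap.mem_ker.mp hy) 1
      simpa [F] using this
  have hvan : ∀ v ∈ Submodule.span ℂ {ℓ i a, ℓ j b}, v ⬝ᵥ φ y = 0 := by
    intro v hv
    rw [Submodule.mem_span_pair] at hv
    obtain ⟨s, t, rfl⟩ := hv
    rw [add_dotProduct, smul_dotProduct, smul_dotProduct, hya, hyb]
    simp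
  apply hy0
  funext m
  refine hnet.2 l i c c' a y hil.symm hcc ?_ ?_ ?_ m
  · rw [pullback_dotProduct]; exact hvan _ hc
  · rw [pullback_dotProduct]; exact hvan _ hc'
  · rw [pullback_dotProduct]; exact hya

theorem IsNetP3.core (h : IsNetP3 ℓ) : Core ℓ where
  three_le := h.1.1
  d_pos := h.1.2.1
  distinct := h.1.distinct
  exists_third := fun hij l a b => h.1.exists_third hij l a b
  third_unique := fun hil => fun hc hc' => h.third_unique hil hc hc'

end Pool.NPS
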