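import Mathlib
import Pool.Agent.H67.NPS.Form
import Pool.Agent.H67.NetFinal

/-!
# The classification of nets in `ℙ³`, for the short definitions
-/

open MvPolynomial Matrix

namespace Pool.NPS

open Pool.Agent.H67.NetP3 (OnP mem_span_exchange exists_of_root coeffs_zero not_indep_of_smul
  block_product blockPoly linForm eval_linForm eval_blockPoly)

/-- **There are exactly three blocks.** -/
theorem Core.three_blocks {k d : ℕ} {ℓ : Fin k → Fin d → (Fin 4 → ℂ)}
    (h : Core ℓ) (hcone : ¬ IsCone ℓ) : k = 3 := by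
  classical
  by_contra hk3
  have hP := h
  have hk := hP.three_le
  have hk4 : 4 ≤ k := by omega
  have hd : 0 < d := hP.d_pos
  obtain ⟨n, hn2, hdn, Y, hY, h0, h1, h2⟩ := h.normal_form hcone (Fin.castLE hk)
    (Fin.castLE_injective hk)
  have hn : 0 < n := by omega
  set b : Fin 3 → Fin k := Fin.castLE hk with hb
  set q : Fin k := ⟨3, by omega⟩ with hq
  have hbq : ∀ i, b i ≠ q := by
    intro i hi
    have := congrArg Fin.val hi
    simp only [hb, hq, Fin.val_castLE] at this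
    omega
  have hbinj : Function.Injective b := Fin.castLE_injective hk
  have n01 : (0 : Fin 3) ≠ 1 := by decide
  have hdist : ∀ i j : Fin k, ∀ a c : Fin d, i ≠ j → LinearIndependent ℂ ![ℓ i a, ℓ j c] := by
    intro i j a c hij
    exact hP.distinct (i, a) (j, c) (by
      intro h2
      simp only [Prod.mk.injEq] at h2
      exact hij h2.1)
  have hdist' : ∀ i : Fin k, ∀ a c : Fin d, a ≠ c → LinearIndependent ℂ ![ℓ i a, ℓ i c] := by
    intro i a c hac
    exact hP.distinct (i, a) (i, c) (by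
      intro h2
      simp only [Prod.mk.injEq, true_and] at h2
      exact hac h2)
  set e := ℓ q ⟨0, hd⟩ with he
  obtain ⟨⟨a, ca, hca, ha⟩, ⟨a', ca', hca', ha'⟩⟩ := exists_of_root hn hdn (ℓ (b 0)) (Y 0) (Y 1)
    (Y 2) (Y 3) (hdist' _) h0 (one_pow n : (1:ℂ) ^ n = 1)
  rw [one_smul] at ha ha'
  -- third blocks
  have key : ∀ a : Fin d, ∃ β : Fin d, ∃ s t : ℂ, s ≠ 0 ∧ t ≠ 0 ∧
      e = s • ℓ (b 0) a + t • ℓ (b 1) β := by
    intro a
    obtain ⟨β, hβ⟩ := hP.exists_third (hbq 0) (b 1) a ⟨0, hd⟩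
    have h3 := mem_span_exchange (hdist _ _ _ _ (fun h => n01 (hbinj h))) hβ
    rw [Submodule.mem_span_pair] at h3
    obtain ⟨s, t, hst⟩ := h3
    refine ⟨β, s, t, ?_, ?_, hst.symm⟩
    · rintro rfl
      have h4 := hdist q (b 1) ⟨0, hd⟩ β (hbq 1).symm
      refine not_indep_of_smul (one_ne_zero) (s := t) (v := ℓ (b 1) β) ?_ (one_smul _ _).symm h4
      rw [← hst]; simp
    · rintro rfl
      have h4 := hdist q (b 0) ⟨0, hd⟩ a (hbq 0).symm
      refine not_indep_of_smul (one_ne_zero) (s := s) (v := ℓ (b 0) a) ?_ (one_smul _ _).symm h4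
      rw [← hst]; simp
  obtain ⟨β, s, t, hs, ht, hE⟩ := key a
  obtain ⟨β', s', t', hs', ht', hE'⟩ := key a'
  rw [ha] at hE
  rw [ha'] at hE'
  rcases h1 β with ⟨c, ζ, hc, hζ, hv⟩ | ⟨c, ζ, hc, hζ, hv⟩ <;>
  rcases h1 β' with ⟨c', ζ', hc', hζ', hv'⟩ | ⟨c', ζ', hc', hζ', hv'⟩ <;>
  rw [hv] at hE <;> rw [hv'] at hE'
  · have h5 := coeffs_zero hY (c0 := s * ca + t * c - t' * c') (c1 := - (s * ca))
      (c2 := - (t * c * ζ) - s' * ca' + t' * c' * ζ') (c3 := s' * ca') (by
        have : e - e = 0 := sub_self e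
        nth_rewrite 1 [hE] at this
        rw [hE'] at this
        rw [← this]
        module)
    have := h5.2.1
    rw [neg_eq_zero] at this
    exact mul_ne_zero hs hca this
  · have h5 := coeffs_zero hY (c0 := s * ca + t * c) (c1 := - (s * ca) - t' * c')
      (c2 := - (t * c * ζ) - s' * ca') (c3 := s' * ca' + t' * c' * ζ') (by
        have : e - e = 0 := sub_self e
        nth_rewrite 1 [hE] at this
        rw [hE'] at this
        rw [← this]
        module)
    obtain ⟨e0, e1, e2, e3⟩ := h5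
    -- `e` is a multiple of `Y 1 - ζ Y 2`
    obtain ⟨-, ⟨x, cx, hcx, hx⟩⟩ := exists_of_root hn hdn (ℓ (b 2)) (Y 0) (Y 3) (Y 1) (Y 2)
      (hdist' _) h2 hζ
    refine not_indep_of_smul hcx (s := -(s * ca)) ?_ hx (hdist q (b 2) ⟨0, hd⟩ x (hbq 2).symm)
    rw [← he, hE]
    have e4 : t * c = -(s * ca) := by linear_combination e0
    calc s • ca • (Y 0 - Y 1) + t • c • (Y 0 - ζ • Y 2)
        = (s * ca) • (Y 0 - Y 1) + (t * c) • (Y 0 - ζ • Y 2) := by module
      _ = (s * ca) • (Y 0 - Y 1) + (-(s * ca)) • (Y 0 - ζ • Y 2) := by rw [e4]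
      _ = (-(s * ca)) • (Y 1 - ζ • Y 2) := by module
  · have h5 := coeffs_zero hY (c0 := s * ca - t' * c') (c1 := - (s * ca) + t * c)
      (c2 := - (s' * ca') + t' * c' * ζ') (c3 := - (t * c * ζ) + s' * ca') (by
        have : e - e = 0 := sub_self e
        nth_rewrite 1 [hE] at this
        rw [hE'] at this
        rw [← this]
        module)
    obtain ⟨e0, e1, e2, e3⟩ := h5
    obtain ⟨⟨x, cx, hcx, hx⟩, -⟩ := exists_of_root hn hdn (ℓ (b 2)) (Y 0) (Y 3) (Y 1) (Y 2)
      (hdist' _) h2 hζ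
    refine not_indep_of_smul hcx (s := s * ca) ?_ hx (hdist q (b 2) ⟨0, hd⟩ x (hbq 2).symm)
    rw [← he, hE]
    have e4 : t * c = s * ca := by linear_combination e1
    calc s • ca • (Y 0 - Y 1) + t • c • (Y 1 - ζ • Y 3)
        = (s * ca) • (Y 0 - Y 1) + (t * c) • (Y 1 - ζ • Y 3) := by module
      _ = (s * ca) • (Y 0 - Y 1) + (s * ca) • (Y 1 - ζ • Y 3) := by rw [e4]
      _ = (s * ca) • (Y 0 - ζ • Y 3) := by module
  · have h5 := coeffs_zero hY (c0 := s * ca) (c1 := - (s * ca) + t * c - t' * c')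
      (c2 := - (s' * ca')) (c3 := - (t * c * ζ) + s' * ca' + t' * c' * ζ') (by
        have : e - e = 0 := sub_self e
        nth_rewrite 1 [hE] at this
        rw [hE'] at this
        rw [← this]
        module)
    exact mul_ne_zero hs hca h5.1

theorem block_eq {n d : ℕ} {w : Fin d → (Fin 4 → ℂ)} {P R S T : Fin 4 → ℂ} {c : ℂ}
    (h : blockPoly w = C c * ((linForm P ^ n - linForm R ^ n) * (linForm S ^ n - linForm T ^ n)))
    (v : Fin 4 → ℂ) : block w v = c * Qb n (P ⬝ᵥ v) (R ⬝ᵥ v) (S ⬝ᵥ v) (T ⬝ᵥ v) := by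
  have h1 := congrArg (eval v) h
  rw [eval_blockPoly] at h1
  simp only [map_mul, map_sub, map_pow, eval_C, eval_linForm] at h1
  exact h1

/-- **Main theorem.** -/
theorem main {k d : ℕ} {ℓ : Fin k → Fin d → (Fin 4 → ℂ)} (h' : IsNetP3 ℓ)
    (hcone : ¬ IsCone ℓ) : ∃ n : ℕ, 2 ≤ n ∧ k = 3 ∧ d = 2 * n ∧ IsQ ℓ n := by
  classical
  have h := h'.core
  obtain rfl := h.three_blocks hcone
  obtain ⟨n, hn2, hdn, Y, hY, h0, h1, h2⟩ := h.normal_form hcone id Function.injective_id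
  have hn : 0 < n := by omega
  have hdist' : ∀ i : Fin 3, ∀ a c : Fin d, a ≠ c → LinearIndependent ℂ ![ℓ i a, ℓ i c] := by
    intro i a c hac
    exact h.distinct (i, a) (i, c) (by
      intro h2
      simp only [Prod.mk.injEq, true_and] at h2
      exact hac h2)
  refine ⟨n, hn2, rfl, hdn, ?_⟩
  obtain ⟨c0, hc0, e0⟩ := block_product hn hdn (ℓ 0) _ _ _ _ (hdist' 0) h0
  obtain ⟨c1, hc1, e1⟩ := block_product hn hdn (ℓ 1) _ _ _ _ (hdist' 1) h1
  obtain ⟨c2, hc2, e2⟩ := block_product hn hdn (ℓ 2) _ _ _ _ (hdist' 2) h2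
  refine ⟨0, 1, 2, Y 0, Y 1, Y 2, Y 3, c0, c1, c2, ?_, ?_, hc0, hc1, hc2, fun v =>
    ⟨block_eq e0 v, block_eq e1 v, block_eq e2 v⟩⟩
  · intro p
    fin_cases p <;> simp
  · intro v hA hB hC hD
    have hU : IsUnit (Matrix.of Y) := by
      have : LinearIndependent ℂ (Matrix.of Y).row := hY
      exact Matrix.linearIndependent_rows_iff_isUnit.mp this
    have h3 : (Matrix.of Y) *ᵥ v = 0 := by
      funext i
      fin_cases i
      · exact hA
      · exact hB
      · exact hC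
      · exact hD
    have h4 : v = 0 := Matrix.mulVec_injective_of_isUnit hU (by rw [h3, Matrix.mulVec_zero])
    intro m
    rw [h4, Pi.zero_apply]

end Pool.NPS
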